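import Pool.Agent.Helper96.BC.St

/-! # BC module C10 -/

set_option autoImplicit false

namespace Pool.Agent.Helper75.BC

open NumberField IsDedekindDomain Polynomial Filter Topology
open Pool.Agent.Helper96.BC Pool.Agent.Helper95.TT
open scoped Classical TensorProduct

private theorem prod_bound (hWB : StWB) {k : Type} [Field k] [NumberField k] (v : Pr k)
    (f g : (𝓞 k)[X]) (hf : 1 ≤ f.natDegree) (hg : 1 ≤ g.natDegree) (hbf : ¬ Bad f v)
    (hbg : ¬ Bad g v) :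
    |(tr 1 f v : ℝ) * tr 1 g v| ≤
      (2 * ((f.natDegree - 1) / 2 : ℕ) * (2 * ((g.natDegree - 1) / 2 : ℕ)) : ℝ) * q v := by
  have h1 := hWB k v f hf hbf
  have h2 := hWB k v g hg hbg
  rw [abs_mul]
  have hq : (0 : ℝ) ≤ q v := Nat.cast_nonneg _
  calc |(tr 1 f v : ℝ)| * |(tr 1 g v : ℝ)| ≤
      (2 * ((f.natDegree - 1) / 2 : ℕ) * √(q v)) * (2 * ((g.natDegree - 1) / 2 : ℕ) * √(q v)) :=
        mul_le_mul h1 h2 (abs_nonneg _) (by positivity)
    _ = (2 * ((f.natDegree - 1) / 2 : ℕ) * (2 * ((g.natDegree - 1) / 2 : ℕ)) : ℝ) *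
        (√(q v) * √(q v)) := by ring
    _ = _ := by rw [Real.mul_self_sqrt hq]

theorem hC10 (h8 : StC8) (h9 : StC9) (hWB : StWB) : StC10 := by
  intro k _ _ f g hf hg R₀ hR₀ hbad d hd ι _ K _ _ _ R hR hdeg hfld hbadK
  have hinj : ∀ i, Function.Injective (algebraMap (𝓞 k) (𝓞 (K i))) := fun i =>
    FaithfulSMul.algebraMap_injective _ _
  have hdf : ∀ i, (f.map (algebraMap (𝓞 k) (𝓞 (K i)))).natDegree = f.natDegree := fun i =>
    natDegree_map_eq_of_injective (hinj i) f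
  have hdg : ∀ i, (g.map (algebraMap (𝓞 k) (𝓞 (K i)))).natDegree = g.natDegree := fun i =>
    natDegree_map_eq_of_injective (hinj i) g
  obtain ⟨B, hB⟩ : ∃ B : ℝ, B = (2 * ((f.natDegree - 1) / 2 : ℕ) *
    (2 * ((g.natDegree - 1) / 2 : ℕ)) : ℝ) := ⟨_, rfl⟩
  have hB0 : 0 ≤ B := by rw [hB]; positivity
  have key := h8 k (fun v => (bb 1 f g v : ℝ)) 2 B (2 + B) R₀ hR₀ ?_ d hd ι K
    (fun i w => (bb 1 (f.map (algebraMap (𝓞 k) (𝓞 (K i))))
      (g.map (algebraMap (𝓞 k) (𝓞 (K i)))) w : ℝ)) R hR hdeg hfld ?_ ?_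
  · rw [← hB]
    exact key.2.2
  · intro v hv
    have h1 : ¬ Bad f v := fun h => hv (hbad v (Or.inl h))
    have h2 : ¬ Bad g v := fun h => hv (hbad v (Or.inr h))
    have h3 := prod_bound hWB v f g hf hg h1 h2
    rw [← hB] at h3
    unfold bb
    push_cast
    rw [add_sub_cancel_left]
    exact h3
  · intro i w hw
    have h1 : ¬ Bad (f.map (algebraMap (𝓞 k) (𝓞 (K i)))) w := fun h => hw (hbadK i w (Or.inl h))
    have h2 : ¬ Bad (g.map (algebraMap (𝓞 k) (𝓞 (K i)))) w := fun h => hw (hbadK i w (Or.inr h))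
    have h3 := prod_bound hWB w _ _ (by rw [hdf]; exact hf) (by rw [hdg]; exact hg) h1 h2
    rw [hdf, hdg, ← hB] at h3
    have hq : (0 : ℝ) ≤ q w := Nat.cast_nonneg _
    show |((bb 1 (f.map (algebraMap (𝓞 k) (𝓞 (K i))))
      (g.map (algebraMap (𝓞 k) (𝓞 (K i)))) w : ℤ) : ℝ)| ≤ (2 + B) * q w
    unfold bb
    push_cast
    refine (abs_add_le _ _).trans ?_
    rw [abs_of_nonneg (by positivity : (0 : ℝ) ≤ 2 * q w)]
    linarith
  · intro i w v hw hdw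
    obtain ⟨h1, -⟩ := h9 k (K i) w v hdw
    have h2 := h1 1 f
    have h3 := h1 1 g
    rw [map_one] at h2 h3
    show ((bb 1 (f.map (algebraMap (𝓞 k) (𝓞 (K i))))
      (g.map (algebraMap (𝓞 k) (𝓞 (K i)))) w : ℤ) : ℝ) = ((bb 1 f g v : ℤ) : ℝ)
    unfold bb
    rw [h2, h3, hdw.2]

end Pool.Agent.Helper75.BC
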