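import Pool.Agent.Helper96.BC.St

/-! # BC module C12 -/

set_option autoImplicit false

namespace Pool.Agent.Helper75.BC

open NumberField IsDedekindDomain Polynomial Filter Topology
open Pool.Agent.Helper96.BC Pool.Agent.Helper95.TT
open scoped Classical TensorProduct

private theorem chi_le {k : Type} [Field k] [NumberField k] (E : 𝓞 k) (v : Pr k) :
    |chi E v| ≤ 1 := by
  unfold chi
  split_ifs <;> simp

private theorem fin_two (k : Type) [Field k] [NumberField k] :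
    {v : Pr k | (2 : 𝓞 k) ∈ v.asIdeal}.Finite := by
  have h2 : (2 : 𝓞 k) ≠ 0 := by norm_num
  have h : Ideal.span {(2 : 𝓞 k)} ≠ 0 := by
    intro h
    exact h2 (Ideal.span_singleton_eq_bot.1 h)
  refine (Ideal.finite_factors h).subset ?_
  intro v hv
  have hv' : (2 : 𝓞 k) ∈ v.asIdeal := hv
  show v.asIdeal ∣ Ideal.span {(2 : 𝓞 k)}
  rw [Ideal.dvd_iff_le, Ideal.span_singleton_le_iff_mem]
  exact hv'

private theorem wt_le {k : Type} [Field k] [NumberField k] (s : ℝ) (hs : 1 < s) (v : Pr k)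
    (hv : 2 ≤ q v) : |wt s v| ≤ 1 := by
  have hq : (2 : ℝ) ≤ q v := by exact_mod_cast hv
  have hq0 : (0 : ℝ) < q v := by linarith
  have hl : 0 ≤ Real.log (q v) := Real.log_nonneg (by linarith)
  have hl2 : Real.log (q v) ≤ q v := (Real.log_le_sub_one_of_pos hq0).trans (by linarith)
  unfold wt
  rw [abs_of_nonneg (by positivity)]
  have h1 : (q v : ℝ) ^ (-s) ≤ (q v : ℝ) ^ (-(1 : ℝ)) :=
    Real.rpow_le_rpow_of_exponent_le (by linarith) (by linarith)
  rw [Real.rpow_neg_one] at h1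
  calc Real.log (q v) * (q v : ℝ) ^ (-s) ≤ q v * (q v : ℝ)⁻¹ :=
        mul_le_mul hl2 h1 (by positivity) hq0.le
    _ = 1 := mul_inv_cancel₀ hq0.ne'

/-- the product formula at the good primes -/
private theorem S1_mul (h5 : StA5) (h1 : StC1) (h9 : StC9) (k K K' M : Type) [Field k]
    [NumberField k] [Field K] [NumberField K] [Field K'] [NumberField K'] [Field M]
    [NumberField M] [Algebra k K] [Algebra k K'] [Algebra k M] [Algebra K M] [Algebra K' M]
    (E : 𝓞 K) (E' : 𝓞 K') (v : Pr k) (h2 : (2 : 𝓞 k) ∉ v.asIdeal)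
    (e : {u : Pr M // Deg1 u v} ≃ {w : Pr K // Deg1 w v} × {w : Pr K' // Deg1 w v})
    (he : ∀ u, Above u.1 (e u).1.1 ∧ Above u.1 (e u).2.1) :
    S1 (chi (algebraMap (𝓞 K) (𝓞 M) E * algebraMap (𝓞 K') (𝓞 M) E')) v =
      S1 (chi E) v * S1 (chi E') v := by
  have hfK : Finite {w : Pr K // Deg1 w v} := by
    have := ((h1 k K).2.2.1 v).1
    exact Set.Finite.to_subtype (this.subset fun w (hw : Deg1 w v) => hw.1)
  have hfK' : Finite {w : Pr K' // Deg1 w v} := by
    have := ((h1 k K').2.2.1 v).1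
    exact Set.Finite.to_subtype (this.subset fun w (hw : Deg1 w v) => hw.1)
  have hfM : Finite {w : Pr M // Deg1 w v} := by
    have := ((h1 k M).2.2.1 v).1
    exact Set.Finite.to_subtype (this.subset fun w (hw : Deg1 w v) => hw.1)
  letI := Fintype.ofFinite {w : Pr K // Deg1 w v}
  letI := Fintype.ofFinite {w : Pr K' // Deg1 w v}
  letI := Fintype.ofFinite {w : Pr M // Deg1 w v}
  unfold S1
  rw [finsum_eq_sum_of_fintype, finsum_eq_sum_of_fintype, finsum_eq_sum_of_fintype,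
    Fintype.sum_mul_sum, ← Fintype.sum_prod_type', ← e.sum_comp]
  refine Finset.sum_congr rfl fun u _ => ?_
  have hu2 : (2 : 𝓞 M) ∉ u.1.asIdeal := by
    intro hu
    apply h2
    rw [← u.2.1, Ideal.mem_comap, map_ofNat]
    exact hu
  rw [(h5 M u.1 hu2).1]
  have hq1 : q u.1 = q (e u).1.1 := by rw [u.2.2, (e u).1.2.2]
  have hq2 : q u.1 = q (e u).2.1 := by rw [u.2.2, (e u).2.2.2]
  rw [(h9 K M u.1 (e u).1.1 ⟨(he u).1, hq1⟩).2 E, (h9 K' M u.1 (e u).2.1 ⟨(he u).2, hq2⟩).2 E']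

theorem hC12 (h4 : StA4) (h5 : StA5) (h1 : StC1) (h2 : StC2) (hc4 : StC4) (hc5 : StC5)
    (h9 : StC9) : StC12 := by
  intro k K K' _ _ _ _ _ _ _ _ E E' hfld hsq
  obtain ⟨M, _, _, _, _, _, ht1, ht2, hTP⟩ := hc5 k K K' hfld
  have hTP' := hTP
  obtain ⟨e, he⟩ := hTP'
  -- the product is not a square
  obtain ⟨E2, hE2⟩ : ∃ E2 : 𝓞 M, E2 = algebraMap (𝓞 K) (𝓞 M) E * algebraMap (𝓞 K') (𝓞 M) E' :=
    ⟨_, rfl⟩
  have hns : ¬ IsSquare (algebraMap (𝓞 M) M E2) := by
    rintro ⟨x, hx⟩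
    apply hsq
    refine ⟨e.symm x, ?_⟩
    rw [← map_mul, ← hx, hE2, map_mul, RingEquiv.eq_symm_apply, he]
    congr 1
  have hA4 := h4 M E2 hns
  obtain ⟨hb, hsum, ⟨B1, hB1⟩⟩ := h2 k M (chi E2) 1 (chi_le E2)
  obtain ⟨hbK, -, -⟩ := h2 k K (chi E) 1 (chi_le E)
  obtain ⟨hbK', -, -⟩ := h2 k K' (chi E') 1 (chi_le E')
  have hfin := (fin_two k).union (hc4 k K K' M hTP)
  have hgood : ∀ v : Pr k, v ∉ hfin.toFinset → S1 (chi E2) v = S1 (chi E) v * S1 (chi E') v := by
    intro v hv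
    rw [Set.Finite.mem_toFinset, Set.mem_union, not_or] at hv
    obtain ⟨hv1, hv2⟩ := hv
    have hv2' : ∃ e : {u : Pr M // Deg1 u v} ≃ {w : Pr K // Deg1 w v} × {w : Pr K' // Deg1 w v},
        ∀ u, Above u.1 (e u).1.1 ∧ Above u.1 (e u).2.1 := by
      by_contra h
      exact hv2 h
    obtain ⟨e', he'⟩ := hv2'
    rw [hE2]
    exact S1_mul h5 h1 h9 k K K' M E E' v hv1 e' he'
  obtain ⟨dK, hdK⟩ : ∃ d : ℝ, d = Module.finrank k K := ⟨_, rfl⟩
  obtain ⟨dK', hdK'⟩ : ∃ d : ℝ, d = Module.finrank k K' := ⟨_, rfl⟩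
  obtain ⟨dM, hdM⟩ : ∃ d : ℝ, d = Module.finrank k M := ⟨_, rfl⟩
  have hK : ∀ v, |S1 (chi E) v| ≤ dK := fun v => by
    have h := hbK v
    rw [one_mul] at h
    rw [hdK]
    exact h.1.trans (by exact_mod_cast h.2)
  have hK' : ∀ v, |S1 (chi E') v| ≤ dK' := fun v => by
    have h := hbK' v
    rw [one_mul] at h
    rw [hdK']
    exact h.1.trans (by exact_mod_cast h.2)
  have hM : ∀ v, |S1 (chi E2) v| ≤ dM := fun v => by
    have h := hb v
    rw [one_mul] at h
    rw [hdM]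
    exact h.1.trans (by exact_mod_cast h.2)
  have hdK0 : 0 ≤ dK := by rw [hdK]; positivity
  -- comparison of the two sums
  have hcmp : ∀ s : ℝ, 1 < s → |∑' v : Pr k, S1 (chi E) v * S1 (chi E') v * wt s v -
      ∑' v : Pr k, S1 (chi E2) v * wt s v| ≤ hfin.toFinset.card * (dK * dK' + dM) := by
    intro s hs
    have hs2 := (hsum s hs).2
    have hzero : ∀ v ∉ hfin.toFinset,
        S1 (chi E) v * S1 (chi E') v * wt s v - S1 (chi E2) v * wt s v = 0 := by
      intro v hv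
      rw [hgood v hv]
      ring
    have hsd : Summable (fun v : Pr k =>
        S1 (chi E) v * S1 (chi E') v * wt s v - S1 (chi E2) v * wt s v) :=
      summable_of_ne_finset_zero (s := hfin.toFinset) hzero
    have hs1 : Summable (fun v : Pr k => S1 (chi E) v * S1 (chi E') v * wt s v) := by
      have := hsd.add hs2
      refine this.congr fun v => ?_
      ring
    rw [← hs1.tsum_sub hs2, tsum_eq_sum (s := hfin.toFinset) hzero]
    refine (Finset.abs_sum_le_sum_abs _ _).trans ?_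
    rw [← nsmul_eq_mul]
    refine Finset.sum_le_card_nsmul _ _ _ fun v _ => ?_
    have hw := wt_le s hs v ((h1 k K).2.2.2 v)
    calc |S1 (chi E) v * S1 (chi E') v * wt s v - S1 (chi E2) v * wt s v| =
        |S1 (chi E) v * S1 (chi E') v - S1 (chi E2) v| * |wt s v| := by
          rw [← abs_mul]
          congr 1
          ring
      _ ≤ |S1 (chi E) v * S1 (chi E') v - S1 (chi E2) v| * 1 :=
          mul_le_mul_of_nonneg_left hw (abs_nonneg _)
      _ ≤ _ := by
          rw [mul_one]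
          refine (abs_sub _ _).trans ?_
          refine add_le_add ?_ (hM v)
          rw [abs_mul]
          exact mul_le_mul (hK v) (hK' v) (abs_nonneg _) hdK0
  obtain ⟨B2, hB2⟩ : ∃ B2 : ℝ, B2 = hfin.toFinset.card * (dK * dK' + dM) := ⟨_, rfl⟩
  rw [← hB2] at hcmp
  -- the limit
  have hlim : Tendsto (fun s : ℝ => (s - 1) * (B1 + B2)) (𝓝[>] 1) (𝓝 0) := by
    have h : Tendsto (fun s : ℝ => (s - 1) * (B1 + B2)) (𝓝 1) (𝓝 ((1 - 1) * (B1 + B2))) :=
      ((continuous_id.sub continuous_const).mul continuous_const).tendsto 1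
    rw [sub_self, zero_mul] at h
    exact h.mono_left nhdsWithin_le_nhds
  have hdiff : Tendsto (fun s : ℝ => (s - 1) * ∑' v : Pr k, S1 (chi E) v * S1 (chi E') v * wt s v -
      (s - 1) * ∑' u : Pr M, chi E2 u * wt s u) (𝓝[>] 1) (𝓝 0) := by
    refine squeeze_zero_norm' ?_ hlim
    filter_upwards [self_mem_nhdsWithin] with s hs
    have hs1 : (1 : ℝ) < s := hs
    rw [Real.norm_eq_abs, ← mul_sub, abs_mul, abs_of_pos (by linarith : 0 < s - 1)]
    refine mul_le_mul_of_nonneg_left ?_ (by linarith)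
    have e1 : ∑' v : Pr k, S1 (chi E) v * S1 (chi E') v * wt s v -
        ∑' u : Pr M, chi E2 u * wt s u =
        (∑' v : Pr k, S1 (chi E) v * S1 (chi E') v * wt s v -
          ∑' v : Pr k, S1 (chi E2) v * wt s v) -
        (∑' u : Pr M, chi E2 u * wt s u - ∑' v : Pr k, S1 (chi E2) v * wt s v) := by ring
    rw [e1]
    refine (abs_sub _ _).trans ?_
    have := hcmp s hs1
    have := hB1 s hs1
    linarith
  have := hdiff.add hA4
  rw [add_zero] at this
  refine this.congr fun s => ?_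
  ring

end Pool.Agent.Helper75.BC
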