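import Pool.Agent.Helper96.BC.St
import Pool.Agent.Helper95.WS.Fin

/-! # BC module WB -/

set_option autoImplicit false

namespace Pool.Agent.Helper75.BC

open NumberField IsDedekindDomain Polynomial Filter Topology
open Pool.Agent.Helper96.BC Pool.Agent.Helper95.TT

private theorem tr_eq {k : Type} [Field k] [NumberField k] (v : Pr k) (f : (𝓞 k)[X])
    (hlc : f.leadingCoeff ∉ v.asIdeal) :
    tr 1 f v = Pool.Agent.Helper24.TF.trF v (f.map (Ideal.Quotient.mk v.asIdeal)) := by
  haveI : v.asIdeal.IsMaximal := v.isMaximal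
  have h0 : Ideal.Quotient.mk v.asIdeal f.leadingCoeff ≠ 0 := by
    intro h
    exact hlc (Ideal.Quotient.eq_zero_iff_mem.1 h)
  have h1 : (f.map (Ideal.Quotient.mk v.asIdeal)).natDegree = f.natDegree :=
    natDegree_map_of_leadingCoeff_ne_zero _ h0
  have h2 : (f.map (Ideal.Quotient.mk v.asIdeal)).leadingCoeff =
      Ideal.Quotient.mk v.asIdeal f.leadingCoeff :=
    leadingCoeff_map_of_leadingCoeff_ne_zero _ h0
  unfold tr Pool.Agent.Helper24.TF.trF pts Pool.Agent.Helper24.TF.ptsF
  rw [h1, h2, map_one, one_mul]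
  simp only [one_mul]

theorem hWB : StWB := by
  intro k _ _ v f hf hbad
  unfold Bad at hbad
  push Not at hbad
  obtain ⟨h2, hlc, hsq⟩ := hbad
  haveI : v.asIdeal.IsMaximal := v.isMaximal
  have h0 : Ideal.Quotient.mk v.asIdeal f.leadingCoeff ≠ 0 := by
    intro h
    exact hlc (Ideal.Quotient.eq_zero_iff_mem.1 h)
  have h1 : (f.map (Ideal.Quotient.mk v.asIdeal)).natDegree = f.natDegree :=
    natDegree_map_of_leadingCoeff_ne_zero _ h0
  rw [tr_eq v f hlc]
  have h3 := Pool.Agent.Helper95.WS.weil_trF k v h2 (f.map (Ideal.Quotient.mk v.asIdeal))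
    (by rw [h1]; exact hf) hsq
  rw [h1] at h3
  exact h3

end Pool.Agent.Helper75.BC
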